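import Pool.Agent.helper62.MS.SpecE

/-!
# MS, row FEW: few words carry most of the mass
-/

set_option autoImplicit false

open scoped MatrixGroups Topology UpperHalfPlane
open UpperHalfPlane MeasureTheory Filter Set

namespace Pool.Agent.MS

open Pool.Agent.EN (XG MG mkX mkM fl pr Hn)
open Pool.Agent.LL (Sys cyl)

theorem FEW_meas {X : Type} [MeasurableSpace X] (T : X → X) {p : ℕ} (P : X → Fin p) (n : ℕ) (hT : Measurable T)
    (hP : Measurable P) : Measurable (fun x (i : Fin n) => P (T^[i] x)) :=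
  measurable_pi_lambda _ fun i => hP.comp (hT.iterate i)

theorem FEW_proof : FEW_stmt := by
  classical
  intro X _ μ T p P N c δ hμ hT hP hδ hN hH
  obtain ⟨F, hF⟩ : ∃ F : X → (Fin N → Fin p), F = fun x (i : Fin N) => P (T^[i] x) := ⟨_, rfl⟩
  have hFm : Measurable F := by
    rw [hF]
    exact FEW_meas T P N hT hP
  have h1 : ∀ w : Fin N → Fin p, {x | ∀ i : Fin N, P (T^[i] x) = w i} = F ⁻¹' {w} := by
    intro w
    ext x
    simp [funext_iff, hF]
  have hsum : ∀ W : Finset (Fin N → Fin p), ∑ w ∈ W, μ.real (F ⁻¹' {w}) = μ.real (F ⁻¹' (W : Set (Fin N → Fin p))) :=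
    fun W => sum_measureReal_preimage_singleton (μ := μ) (f := F) W (fun w _ => hFm (measurableSet_singleton w))
  have htot : ∑ w : Fin N → Fin p, μ.real (F ⁻¹' {w}) = 1 := by
    rw [hsum]
    simp
  have hN0 : (0 : ℝ) < N := by exact_mod_cast hN
  have hexp : 0 < Real.exp (-(δ * N)) := Real.exp_pos _
  obtain ⟨W, hW⟩ : ∃ W : Finset (Fin N → Fin p), W = Finset.univ.filter (fun w => Real.exp (-(δ * N)) ≤ μ.real (F ⁻¹' {w})) := ⟨_, rfl⟩
  have hWm : ∀ w ∈ W, Real.exp (-(δ * N)) ≤ μ.real (F ⁻¹' {w}) := fun w hw => by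
    rw [hW] at hw
    exact (Finset.mem_filter.1 hw).2
  refine ⟨W, ?_, fun w hw => ?_, ?_⟩
  · have h2 : (W.card : ℝ) * Real.exp (-(δ * N)) ≤ 1 := by
      calc (W.card : ℝ) * Real.exp (-(δ * N)) = ∑ w ∈ W, Real.exp (-(δ * N)) := by
            rw [Finset.sum_const, nsmul_eq_mul]
        _ ≤ ∑ w ∈ W, μ.real (F ⁻¹' {w}) := Finset.sum_le_sum hWm
        _ ≤ ∑ w : Fin N → Fin p, μ.real (F ⁻¹' {w}) :=
            Finset.sum_le_sum_of_subset_of_nonneg (Finset.subset_univ _) (fun _ _ _ => measureReal_nonneg)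
        _ = 1 := htot
    rw [Real.exp_neg, ← div_eq_mul_inv, div_le_one (Real.exp_pos _)] at h2
    exact h2
  · rw [h1 w]
    by_contra h2
    rw [Set.not_nonempty_iff_eq_empty] at h2
    have h3 := hWm w hw
    rw [h2, measureReal_empty] at h3
    linarith
  · have h2 : {x | ∃ w ∈ W, ∀ i : Fin N, P (T^[i] x) = w i} = F ⁻¹' (W : Set (Fin N → Fin p)) := by
      ext x
      constructor
      · rintro ⟨w, hw, hx⟩
        have hx' : x ∈ F ⁻¹' {w} := by
          rw [← h1 w]
          exact hx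
        show F x ∈ (W : Set (Fin N → Fin p))
        rw [(show F x = w from hx')]
        exact hw
      · intro hx
        refine ⟨F x, hx, ?_⟩
        have hx' : x ∈ F ⁻¹' {F x} := rfl
        rw [← h1 (F x)] at hx'
        exact hx'
    rw [h2, ← hsum]
    -- the other words
    have h3 : ∑ w ∈ Finset.univ.filter (fun w => ¬ Real.exp (-(δ * N)) ≤ μ.real (F ⁻¹' {w})), μ.real (F ⁻¹' {w}) ≤ c / δ := by
      have h4 : ∀ w ∈ Finset.univ.filter (fun w => ¬ Real.exp (-(δ * N)) ≤ μ.real (F ⁻¹' {w})),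
          δ * N * μ.real (F ⁻¹' {w}) ≤ Real.negMulLog (μ.real (F ⁻¹' {w})) := by
        intro w hw
        have h5 : μ.real (F ⁻¹' {w}) < Real.exp (-(δ * N)) := not_le.1 (Finset.mem_filter.1 hw).2
        rcases (measureReal_nonneg (μ := μ) (s := F ⁻¹' {w})).eq_or_lt with h6 | h6
        · rw [← h6]
          simp
        · have h7 : Real.log (μ.real (F ⁻¹' {w})) < -(δ * N) := by
            rw [Real.log_lt_iff_lt_exp h6]
            exact h5
          unfold Real.negMulLog
          nlinarith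
      have h8 : δ * N * ∑ w ∈ Finset.univ.filter (fun w => ¬ Real.exp (-(δ * N)) ≤ μ.real (F ⁻¹' {w})), μ.real (F ⁻¹' {w}) ≤ c * N := by
        rw [Finset.mul_sum]
        refine (Finset.sum_le_sum h4).trans (le_trans ?_ hH)
        unfold Hn
        simp only [h1]
        exact Finset.sum_le_sum_of_subset_of_nonneg (Finset.filter_subset _ _)
          (fun w _ _ => Real.negMulLog_nonneg measureReal_nonneg measureReal_le_one)
      rw [le_div_iff₀ hδ]
      have h9 : (δ * ∑ w ∈ Finset.univ.filter (fun w => ¬ Real.exp (-(δ * N)) ≤ μ.real (F ⁻¹' {w})), μ.real (F ⁻¹' {w})) * N ≤ c * N := by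
        calc _ = δ * N * ∑ w ∈ Finset.univ.filter (fun w => ¬ Real.exp (-(δ * N)) ≤ μ.real (F ⁻¹' {w})), μ.real (F ⁻¹' {w}) := by ring
          _ ≤ c * N := h8
      have h10 := le_of_mul_le_mul_right h9 hN0
      linarith
    have h11 := Finset.sum_filter_add_sum_filter_not (Finset.univ : Finset (Fin N → Fin p))
      (fun w => Real.exp (-(δ * N)) ≤ μ.real (F ⁻¹' {w})) (fun w => μ.real (F ⁻¹' {w}))
    rw [htot, ← hW] at h11
    linarith

end Pool.Agent.MS
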