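import Pool.Agent.helper57.MS.Spec

/-! # Row ms:CIN: copies of independent functions are independent -/

set_option autoImplicit false

open Finset

namespace Pool.Agent.helper57.MS

open Pool.Agent.RRank Pool.Agent.helper26.IM

/-- diagonal restriction as a linear map -/
def CIN_dia {d l : ℕ} {Q : Fin d → Type} (K : Type) [Field K] :
    (((w : Fin d × Fin l) → Q w.1) → K) →ₗ[K] (((α : Fin d) → Q α) → K) where
  toFun := dia
  map_add' _ _ := rfl
  map_smul' _ _ := rfl

theorem CIN_gr_fst {d l : ℕ} (S : Finset (Fin d)) (s : Fin d → Fin l) :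
    (gr S s).image Prod.fst = S := by
  unfold gr
  rw [Finset.image_image]
  exact Finset.image_id

theorem CIN_gr_inj {d l : ℕ} (S : Finset (Fin d)) (s : Fin d → Fin l) (w w' : Fin d × Fin l)
    (hw : w ∈ gr S s) (hw' : w' ∈ gr S s) (h : w.1 = w'.1) : w = w' := by
  unfold gr at hw hw'
  rw [Finset.mem_image] at hw hw'
  obtain ⟨α, _, rfl⟩ := hw
  obtain ⟨β, _, rfl⟩ := hw'
  have h1 : α = β := h
  rw [h1]

theorem CIN_D {K : Type} [Field K] {d l : ℕ} {Q : Fin d → Type} (G : FSys2 K d l Q)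
    (J₀ : Finset (Fin d × Fin l)) (hinj : ∀ w ∈ J₀, ∀ w' ∈ J₀, w.1 = w'.1 → w = w')
    (f : ((w : Fin d × Fin l) → Q w.1) → K) (hf : f ∈ G.F'.D J₀) :
    CIN_dia K f ∈ G.F.D (J₀.image Prod.fst) := by
  unfold FSys.D at hf
  induction hf using Submodule.span_induction with
  | mem x hx =>
    obtain ⟨S', S'', h1, h2, h3, h4, f, hf, g, hg, rfl⟩ := hx
    apply Submodule.subset_span
    refine ⟨S'.image Prod.fst, S''.image Prod.fst, h1.image _, h2.image _, ?_, ?_, dia f,
      G.dia_mem S' f hf, dia g, G.dia_mem S'' g hg, rfl⟩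
    · rw [Finset.disjoint_left]
      intro α ha hb
      rw [Finset.mem_image] at ha hb
      obtain ⟨w, hw, rfl⟩ := ha
      obtain ⟨w', hw', he⟩ := hb
      have hm : w ∈ J₀ := by rw [← h4]; exact Finset.mem_union_left _ hw
      have hm' : w' ∈ J₀ := by rw [← h4]; exact Finset.mem_union_right _ hw'
      have h5 := hinj w' hm' w hm he
      rw [h5] at hw'
      exact Finset.disjoint_left.1 h3 hw hw'
    · rw [← Finset.image_union, h4]
  | zero => rw [map_zero]; exact Submodule.zero_mem _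
  | add x y _ _ h1 h2 => rw [map_add]; exact Submodule.add_mem _ h1 h2
  | smul a x _ h1 => rw [map_smul]; exact Submodule.smul_mem _ a h1

theorem CIN : CIN_stmt := by
  classical
  intro K _ d l Q G κ _ J b hI κ' _ kk ss hinj J₀ c hc hmem
  by_contra hcon
  push Not at hcon
  obtain ⟨i₀, hi₀⟩ := hcon
  have hgr : ∀ i, c i ≠ 0 → gr (J (kk i)) (ss i) = J₀ := by
    intro i hi
    by_contra h
    exact hi (hc i h)
  have hJ₀ := hgr i₀ hi₀
  have hfst : ∀ w ∈ J₀, ∀ w' ∈ J₀, w.1 = w'.1 → w = w' := by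
    intro w hw w' hw' h
    rw [← hJ₀] at hw hw'
    exact CIN_gr_inj _ _ w w' hw hw' h
  have hJ : ∀ i, c i ≠ 0 → J (kk i) = J₀.image Prod.fst := by
    intro i hi
    rw [← hgr i hi, CIN_gr_fst]
  have h1 := CIN_D G J₀ hfst _ hmem
  rw [map_sum] at h1
  have h2 : ∑ i, CIN_dia K (c i • cop (b (kk i)) (ss i)) = ∑ i, c i • b (kk i) := by
    refine Finset.sum_congr rfl fun i _ => ?_
    rw [map_smul]
    rfl
  rw [h2] at h1
  have h3 : ∑ i, c i • b (kk i) = ∑ k, (∑ i with kk i = k, c i) • b k := by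
    rw [← Finset.sum_fiberwise (s := univ) (g := kk)]
    refine Finset.sum_congr rfl fun k _ => ?_
    rw [Finset.sum_smul]
    refine Finset.sum_congr rfl fun i hi => ?_
    rw [(Finset.mem_filter.1 hi).2]
  rw [h3] at h1
  have h4 := hI (J₀.image Prod.fst) (fun k => ∑ i with kk i = k, c i) ?_ h1 (kk i₀)
  · have h5 : (∑ i with kk i = kk i₀, c i) = c i₀ := by
      apply Finset.sum_eq_single_of_mem i₀ (by simp)
      intro i hi hne
      by_contra h6
      apply hne
      apply hinj
      show (kk i, gr (J (kk i)) (ss i)) = (kk i₀, gr (J (kk i₀)) (ss i₀))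
      rw [hgr i h6, hJ₀, (Finset.mem_filter.1 hi).2]
    exact hi₀ (h5.symm.trans h4)
  · intro k hk
    apply Finset.sum_eq_zero
    intro i hi
    by_contra h6
    apply hk
    rw [← hJ i h6, (Finset.mem_filter.1 hi).2]

end Pool.Agent.helper57.MS
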