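import Pool.Agent.helper57.MS.Spec2

/-! # Row ms:SS4: the family `R4` is strongly separated -/

set_option autoImplicit false

open Finset

namespace Pool.Agent.helper57.MS

open Pool.Agent.RRank Pool.Agent.helper26.IM

theorem SS4_comb : ∀ L0 L : Finset (Fin 4), ¬ ({0, 3} : Finset (Fin 4)) ⊆ L0 →
    ¬ ({1, 2} : Finset (Fin 4)) ⊆ L0 →
    ¬ (L0 ⊆ ({2, 3} : Finset (Fin 4)) ∨ L0 ⊆ ({2, 3} : Finset (Fin 4))ᶜ) →
    (L = L0 ∨ L0 ∩ L = ∅) → L ⊆ ({1, 3} : Finset (Fin 4)) ∨ L ⊆ ({1, 3} : Finset (Fin 4))ᶜ := by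
  decide

theorem SS4_odd (A : Finset (Fin 4)) (h1 : Odd (({2, 3} : Finset (Fin 4)) ∩ A).card)
    (h2 : Odd (({1, 3} : Finset (Fin 4)) ∩ A).card) : ∀ P' ∈ R4, OddP A P' := by
  intro P' hP'
  rcases hP' with h | h
  · refine ⟨{2, 3}, ?_, h1⟩
    have h' : P'.parts = ({({2, 3} : Finset (Fin 4)), ({2, 3} : Finset (Fin 4))ᶜ} :
      Finset (Finset (Fin 4))).erase ∅ := h
    rw [h']
    decide
  · refine ⟨{1, 3}, ?_, h2⟩
    have h' : P'.parts = ({({1, 3} : Finset (Fin 4)), ({1, 3} : Finset (Fin 4))ᶜ} :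
      Finset (Finset (Fin 4))).erase ∅ := h
    rw [h']
    decide

theorem SS4 (hBPE : BPE_stmt) : SS4_stmt := by
  intro P hP
  have hA : NCP ({0, 3} : Finset (Fin 4)) P :=
    hP {0, 3} (by decide) (by decide) (SS4_odd _ (by decide) (by decide))
  have hB : NCP ({1, 2} : Finset (Fin 4)) P :=
    hP {1, 2} (by decide) (by decide) (SS4_odd _ (by decide) (by decide))
  obtain ⟨⟨B1, hB1⟩, h1⟩ := hBPE 4 (by norm_num) ({2, 3} : Finset (Fin 4))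
  obtain ⟨⟨B2, hB2⟩, h2⟩ := hBPE 4 (by norm_num) ({1, 3} : Finset (Fin 4))
  by_cases hc : ∀ L ∈ P.parts, L ⊆ ({2, 3} : Finset (Fin 4)) ∨ L ⊆ ({2, 3} : Finset (Fin 4))ᶜ
  · exact ⟨B1, Or.inl hB1, (h1 P B1 hB1).2 hc⟩
  · push Not at hc
    obtain ⟨L0, hL0, h3, h4⟩ := hc
    refine ⟨B2, Or.inr hB2, (h2 P B2 hB2).2 ?_⟩
    intro L hL
    refine SS4_comb L0 L (hA L0 hL0) (hB L0 hL0) (fun h => h.elim h3 h4) ?_
    by_cases he : L = L0
    · exact Or.inl he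
    · right
      have h5 : Disjoint L0 L := P.disjoint hL0 hL (fun h => he h.symm)
      exact Finset.disjoint_iff_inter_eq_empty.1 h5

end Pool.Agent.helper57.MS
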